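import Pool.Agent.Work.MP_fa3ce5_an.Final

set_option autoImplicit false
open MeasureTheory ProbabilityTheory
open scoped symmDiff

namespace Pool.Agent.Results.MP_fa3ce5_an.GapEntropy

/-- Let `T × T` be ergodic and `F` a factor of `T × T` that is independent of the first coordinate
algebra.
(1) If `D ∈ F` is not (mod null sets) of the form `X × B`, and any two sections `D_x, D_x'` are
almost surely equal mod null sets or at distance at least `δ`, then `h(T) ≥ δ log 2`.
(2) If moreover `F` is independent of the second coordinate algebra, and `F` contains a nontrivial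
set that is mod null sets a finite union of measurable rectangles, then `h(T) > 0`. -/
theorem result :
    ∀ (α : Type) [MeasurableSpace α] [StandardBorelSpace α]
      (μ : Measure α) [IsProbabilityMeasure μ] (T : α ≃ᵐ α),
      MeasurePreserving (⇑T) μ μ →
      Ergodic (Prod.map ⇑T ⇑T) (μ.prod μ) →
      ∀ F : MeasurableSpace (α × α),
        F ≤ (Prod.instMeasurableSpace : MeasurableSpace (α × α)) →
        (∀ s : Set (α × α), MeasurableSet[F] s ↔ MeasurableSet[F] (Prod.map ⇑T ⇑T ⁻¹' s)) →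
        Indep F (MeasurableSpace.comap Prod.fst (inferInstance : MeasurableSpace α)) (μ.prod μ) →
        (∀ (D : Set (α × α)) (δ : ℝ), MeasurableSet[F] D → 0 < δ →
          (∀ᵐ p ∂(μ.prod μ), μ ((Prod.mk p.1 ⁻¹' D) ∆ (Prod.mk p.2 ⁻¹' D)) = 0 ∨
            ENNReal.ofReal δ ≤ μ ((Prod.mk p.1 ⁻¹' D) ∆ (Prod.mk p.2 ⁻¹' D))) →
          (¬ ∃ B : Set α, MeasurableSet B ∧
            D =ᵐ[μ.prod μ] (Prod.snd ⁻¹' B : Set (α × α))) →
          ∀ c : ℝ, c < δ * Real.log 2 →
            ∃ (k : ℕ) (f : α → Fin k), Measurable f ∧ ∀ n : ℕ,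
              c * (n : ℝ) ≤ ∑ v : Fin n → Fin k,
                Real.negMulLog ((μ {x | ∀ i : Fin n, f ((⇑T)^[(i : ℕ)] x) = v i}).toReal)) ∧
        (Indep F (MeasurableSpace.comap Prod.snd (inferInstance : MeasurableSpace α))
            (μ.prod μ) →
          ∀ (D : Set (α × α)), MeasurableSet[F] D → 0 < (μ.prod μ) D → (μ.prod μ) D < 1 →
          (∃ (m : ℕ) (A B : Fin m → Set α), (∀ i, MeasurableSet (A i) ∧ MeasurableSet (B i)) ∧
            D =ᵐ[μ.prod μ] (⋃ i, A i ×ˢ B i : Set (α × α))) →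
            ∃ (k : ℕ) (f : α → Fin k), Measurable f ∧ ∃ c : ℝ, 0 < c ∧ ∀ n : ℕ,
              c * (n : ℝ) ≤ ∑ v : Fin n → Fin k,
                Real.negMulLog ((μ {x | ∀ i : Fin n, f ((⇑T)^[(i : ℕ)] x) = v i}).toReal)) := by
  intro α _ _ μ _ T hT hErg F hF hinv hind
  constructor
  · intro D δ hD hδ hgap hne c hc
    exact Work.MP_fa3ce5_an.gap_entropy μ hT hErg hF hinv hind hD hδ hgap hne hc
  · intro hind2 D hD h0 h1 hrect
    obtain ⟨m, A, B, -, hDr⟩ := hrect
    obtain ⟨δ, hδ, hgap⟩ := Work.MP_fa3ce5_an.gap_of_rect μ hDr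
    have hne := Work.MP_fa3ce5_an.not_snd μ hind2 hD h0 h1
    have hlog : 0 < Real.log 2 := Real.log_pos (by norm_num)
    have hc : δ * Real.log 2 / 2 < δ * Real.log 2 := by
      have : 0 < δ * Real.log 2 := by positivity
      linarith
    obtain ⟨k, f, hf, h⟩ :=
      Work.MP_fa3ce5_an.gap_entropy μ hT hErg hF hinv hind hD hδ hgap hne hc
    exact ⟨k, f, hf, δ * Real.log 2 / 2, by positivity, h⟩

end Pool.Agent.Results.MP_fa3ce5_an.GapEntropy
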